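import Pool.Agent.T9h88.IO.Asm2

/-!
# (O) the clauses are admissible, the formulas are closed
-/

set_option autoImplicit false

namespace Pool.Agent.T9h85.IO

open Pool.Agent.T9h88.IO
open Pool.Agent.TH672 (Fm Str upd num digits varStr LogK)
open Pool.Agent.TH636.BC
open Pool.Agent.T9h6.BC (sz cl free_cl)
open Pool.Agent.TH838.J1549 (free_inst closed_robinson)

instance decLt (M : ℕ) : ∀ a : At, Decidable (a.lt M)
  | .zero x => inferInstanceAs (Decidable (x < M))
  | .succ x y => inferInstanceAs (Decidable (x < M ∧ y < M))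
  | .add x y z => inferInstanceAs (Decidable (x < M ∧ y < M ∧ z < M))
  | .mul x y z => inferInstanceAs (Decidable (x < M ∧ y < M ∧ z < M))
  | .op _ a b c d => inferInstanceAs (Decidable (a < M ∧ b < M ∧ c < M ∧ d < M))

instance decOk (c : Cl) : Decidable c.Ok :=
  inferInstanceAs (Decidable ((∀ p ∈ c.prem, p.lt VB) ∧ c.concl.lt VB))

theorem ok_eq : ∀ c ∈ clEq, c.Ok := by decide +kernel
theorem ok_free : ∀ c ∈ clFree, c.Ok := by decide +kernel
theorem ok_ffor : ∀ c ∈ clFfor, c.Ok := by decide +kernel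
theorem ok_sub : ∀ c ∈ clSub, c.Ok := by decide +kernel
theorem ok_sw : ∀ c ∈ clSw, c.Ok := by decide +kernel
theorem ok_line : ∀ c ∈ clLine, c.Ok := by decide +kernel
theorem ok_all : ∀ c ∈ clAll, c.Ok := by decide +kernel
theorem ok_str : ∀ c ∈ clStr, c.Ok := by decide +kernel
theorem ok_th : ∀ c ∈ clTh, c.Ok := by decide +kernel

theorem ok_num (P : Fml) (κ : ℕ) : ∀ c ∈ clNum P κ, c.Ok := by
  simp [clNum, Cl.Ok, At.lt, VB]

theorem ok_step (σ : List Bool) (b : Bool) : (appStep σ b).Ok := by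
  simp [appStep, Cl.Ok, At.lt, VB]

theorem ok_appCl (σ : List Bool) : ∀ c ∈ appCl σ, c.Ok := by
  intro c hc
  rcases List.mem_cons.1 hc with rfl | hc
  · simp [Cl.Ok, At.lt, VB]
  · obtain ⟨n, -, rfl⟩ := List.mem_map.1 hc
    exact ok_step _ _

theorem ok_kCl (κ : ℕ) : ∀ c ∈ kCl κ, c.Ok := by
  intro c hc
  rcases List.mem_cons.1 hc with rfl | hc
  · simp [Cl.Ok, At.lt, VB]
  · obtain ⟨n, -, rfl⟩ := List.mem_map.1 hc
    simp [Cl.Ok, At.lt, VB]

theorem ok_clApp (P : Fml) : ∀ c ∈ clApp P, c.Ok := by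
  intro c hc
  obtain ⟨τ, -, h⟩ := List.mem_flatMap.1 hc
  exact ok_appCl τ c h

theorem ok_clsB (P : Fml) (κ : ℕ) : ∀ c ∈ clsB P κ, c.Ok := by
  intro c hc
  simp only [clsB, List.mem_append] at hc
  rcases hc with (((((((((((h | h) | h) | h) | h) | h) | h) | h) | h) | h) | h) | h)
  · exact ok_eq c h
  · exact ok_free c h
  · exact ok_ffor c h
  · exact ok_sub c h
  · exact ok_sw c h
  · exact ok_line c h
  · exact ok_all c h
  · exact ok_str c h
  · exact ok_num P κ c h
  · exact ok_kCl κ c h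
  · exact ok_clApp P c h
  · exact ok_th c h

theorem ok_clsD (σ : List Bool) : ∀ c ∈ clsD σ, c.Ok := by
  intro c hc
  rcases List.mem_cons.1 hc with rfl | hc
  · simp [Cl.Ok, At.lt, VB]
  · rcases List.mem_append.1 hc with h | h
    · exact ok_appCl _ c h
    · exact ok_appCl _ c h

theorem free_at {a : At} {M x : ℕ} (ha : a.lt M) (h : a.fm.Free x) : x < M := by
  cases a <;> simp only [At.fm, Fm.Free, At.lt] at h ha <;> omega

theorem free_body {l : List At} {q : At} {M x : ℕ} (hl : ∀ p ∈ l, p.lt M) (hq : q.lt M)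
    (h : (l.foldr (fun p f => Fm.imp p.fm f) q.fm).Free x) : x < M := by
  induction l with
  | nil => exact free_at hq h
  | cons p l ih =>
    rcases h with h | h
    · exact free_at (hl p (by simp)) h
    · exact ih (fun p hp => hl p (by simp [hp])) h

theorem closed_cl {c : Cl} (hc : c.Ok) : c.fm.Closed := by
  intro x h
  obtain ⟨h1, h2⟩ := free_cl h
  have := free_body hc.1 hc.2 h1
  omega

theorem closed_ExAx : ∀ ψ ∈ ExAx, ψ.Closed := by
  intro ψ hψ x
  simp only [ExAx, List.mem_cons, List.not_mem_nil, or_false] at hψ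
  rcases hψ with rfl | rfl <;> simp only [Fm.ex, Fm.neg, Fm.Free, or_false] <;> tauto

theorem closed_link {P : Fml} (hP : Numerates P) : (link P).Closed := by
  intro x h
  simp only [link, Fm.Free, At.fm] at h
  obtain ⟨h1, h2, h3, h⟩ := h
  rcases h with h | h | h | h
  · omega
  · omega
  · omega
  · have := free_off hP h
    omega

theorem closed_B {A₀ : List Fml} {P : Fml} (hA : TrueSent A₀) (hP : Numerates P) (κ : ℕ) :
    ∀ ψ ∈ B A₀ P κ, ψ.Closed := by
  intro ψ hψ
  simp only [B, List.mem_append, List.mem_cons, List.mem_map] at hψ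
  rcases hψ with h | (h | h) | h | ⟨c, hc, rfl⟩
  · exact (hA ψ h).1
  · exact closed_robinson ψ h
  · exact closed_ExAx ψ h
  · exact h ▸ closed_link hP
  · exact closed_cl (ok_clsB P κ c hc)

theorem closed_Ax1 {P : Fml} (hP : Numerates P) : (Ax1 P).Closed := by
  intro x h
  simp only [Ax1, θ0, Fm.Free, At.fm] at h
  obtain ⟨h1, h2, h3, h4, h⟩ := h
  rcases h with h | h | h | ⟨h5, h⟩
  · omega
  · omega
  · omega
  · have := free_off hP h
    omega

theorem closed_Ax2 : Ax2.Closed := by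
  intro x h
  simp only [Ax2, θ0, Fm.neg, Fm.Free, or_false, At.fm] at h
  tauto

theorem closed_al (A₀ : List Fml) (P : Fml) (κ v m : ℕ) : (al A₀ P κ v m).Closed := by
  intro x h
  obtain ⟨h0, h1, h⟩ := free_inst h
  obtain ⟨-, h2, h⟩ := free_inst h
  obtain ⟨-, h3, h⟩ := free_inst h
  simp only [θ0, Fm.Free, At.fm] at h
  omega

theorem closed_conAll {P : Fml} (hP : Numerates P) (Γ : List Fml) : (conAll P Γ).Closed := by
  intro x h
  obtain ⟨h1, h⟩ := h
  obtain ⟨-, h2, h⟩ := free_inst h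
  have := free_off hP h
  omega

theorem closed_conAt {P : Fml} (hP : Numerates P) (Γ : List Fml) (n : ℕ) : (conAt P Γ n).Closed := by
  intro x h
  obtain ⟨-, h1, h⟩ := free_inst h
  obtain ⟨-, h2, h⟩ := free_inst h
  have := free_off hP h
  omega

/-- (O) -/
theorem mOk : MOk := by
  intro A₀ P κ hA
  refine ⟨?_, ?_, ?_, ?_⟩
  · intro c hc
    rcases List.mem_append.1 hc with h | h
    · exact ok_clsB P κ c h
    · exact ok_clsD _ c h
  · intro hP ψ hψ
    simp only [U, List.mem_cons, List.mem_append, List.mem_map] at hψ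
    rcases hψ with rfl | rfl | ⟨c, hc, rfl⟩ | h
    · exact closed_Ax1 hP
    · exact closed_Ax2
    · exact closed_cl (ok_clsD _ c hc)
    · exact closed_B hA hP κ ψ h
  · intro hP v m ψ hψ
    simp only [Th, Am, List.mem_cons] at hψ
    rcases hψ with rfl | rfl | h
    · exact closed_conAll hP _
    · exact closed_al A₀ P κ v m
    · exact closed_B hA hP κ ψ h
  · intro hP Γ
    exact ⟨closed_conAll hP Γ, closed_conAt hP Γ⟩

end Pool.Agent.T9h85.IO
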