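import Pool.Agent.T9h88.IO.Spec

/-! # (S9b) decoding of trees as formulas -/

set_option autoImplicit false

namespace Pool.Agent.T9h85.IO

open Pool.Agent.TH672 (Fm Str upd num digits varStr LogK ReplK Sw)
open Pool.Agent.TH672.Form (ren)
open Pool.Agent.TH636.BC
open Pool.Agent.T9h88.IO
open Pool.Agent.T9h88.IO.Tree
open Pool.Agent.T9h6.BC (sz)

/-! ## lists -/

/-- a tree as a list of trees -/
def toL : Tree → List Tree
  | nil => []
  | node v r => v :: toL r

/-- reading with clamped indices -/
def rd : List ℕ → ℕ → ℕ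
  | [], _ => 0
  | [v], _ => v
  | v :: _ :: _, 0 => v
  | _ :: w :: L, i + 1 => rd (w :: L) i

theorem rd_mem : ∀ (L : List ℕ) (i : ℕ), L ≠ [] → rd L i ∈ L
  | [], _, h => absurd rfl h
  | [v], _, _ => by simp [rd]
  | v :: w :: L, 0, _ => by simp [rd]
  | v :: w :: L, i + 1, _ => by
    have := rd_mem (w :: L) i (by simp)
    exact List.mem_cons_of_mem _ this

theorem rd_map (f : ℕ → ℕ) : ∀ (L : List ℕ) (i : ℕ), L ≠ [] → rd (L.map f) i = f (rd L i)
  | [], _, h => absurd rfl h
  | [v], _, _ => rfl
  | v :: w :: L, 0, _ => rfl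
  | v :: w :: L, i + 1, _ => rd_map f (w :: L) i (by simp)

theorem rd_forall₂ {R : ℕ → ℕ → Prop} : ∀ (L L' : List ℕ) (i : ℕ), List.Forall₂ R L L' → L ≠ [] →
    R (rd L i) (rd L' i)
  | [], _, _, _, h => absurd rfl h
  | [v], [v'], _, h, _ => by
    cases h with
    | cons h1 _ => exact h1
  | [v], [], _, h, _ => by cases h
  | [v], _ :: _ :: _, _, h, _ => by
    cases h with
    | cons _ h2 => cases h2
  | v :: w :: L, [], _, h, _ => by cases h
  | v :: w :: L, [v'], _, h, _ => by
    cases h with
    | cons _ h2 => cases h2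
  | v :: w :: L, v' :: w' :: L', 0, h, _ => by
    cases h with
    | cons h1 _ => exact h1
  | v :: w :: L, v' :: w' :: L', i + 1, h, _ => by
    cases h with
    | cons _ h2 => exact rd_forall₂ (w :: L) (w' :: L') i h2 (by simp)

/-! ## the checker on lists of variables -/

theorem ff_eq : (ff : Tree) = nil := rfl
theorem tt_ne : (tt : Tree) ≠ ff := by intro h; cases h

theorem eqT_cases : ∀ a b : Tree, (a = b → eqT a b = tt) ∧ (a ≠ b → eqT a b = ff)
  | nil, nil => ⟨fun _ => rfl, fun h => absurd rfl h⟩
  | nil, node _ _ => ⟨fun h => (by cases h), fun _ => rfl⟩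
  | node _ _, nil => ⟨fun h => (by cases h), fun _ => rfl⟩
  | node a b, node c d => by
    have h1 := eqT_cases a c
    have h2 := eqT_cases b d
    constructor
    · intro h
      cases h
      rw [eqT, h1.1 rfl, if_neg tt_ne, h2.1 rfl]
    · intro h
      rw [eqT]
      by_cases h3 : a = c
      · rw [h1.1 h3, if_neg tt_ne]
        exact h2.2 fun h4 => h (by rw [h3, h4])
      · rw [h1.2 h3, if_pos rfl]

theorem eqT_ff {a b : Tree} : eqT a b = ff ↔ a ≠ b := by
  constructor
  · intro h h1
    rw [(eqT_cases a b).1 h1] at h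
    exact tt_ne h
  · exact (eqT_cases a b).2

theorem memT_ff (x : Tree) : ∀ vs : Tree, memT x vs = ff ↔ x ∉ toL vs
  | nil => by simp [memT, toL]
  | node v r => by
    rw [memT, toL, List.mem_cons, not_or, ← memT_ff x r]
    by_cases h : x = v
    · rw [if_neg (fun h1 => (eqT_ff.1 h1) h)]
      constructor
      · intro h1; exact absurd h1 tt_ne
      · intro h1; exact absurd h h1.1
    · rw [if_pos (eqT_ff.2 h)]
      exact ⟨fun h1 => ⟨h, h1⟩, fun h1 => h1.2⟩

theorem toL_subV (x y : Tree) : ∀ vs : Tree,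
    toL (subV x y vs) = (toL vs).map (fun v => if v = x then y else v)
  | nil => rfl
  | node v r => by
    rw [subV]
    by_cases h : v = x
    · rw [if_neg (fun h1 => (eqT_ff.1 h1) h), toL, toL_subV x y r, toL, List.map_cons, if_pos h]
    · rw [if_pos (eqT_ff.2 h), toL, toL_subV x y r, toL, List.map_cons, if_neg h]

theorem subV_nil (x y vs : Tree) : subV x y vs = nil ↔ vs = nil := by
  cases vs with
  | nil => simp [subV]
  | node v r =>
    rw [subV]
    split_ifs <;> simp

theorem sw1_cases {x y v w : Tree} (h : sw1 (node x y) v w ≠ ff) : w = v ∨ (v = x ∧ w = y) := by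
  rw [sw1] at h
  by_cases h1 : v = w
  · exact Or.inl h1.symm
  · rw [if_pos (eqT_ff.2 h1)] at h
    by_cases h2 : v = x
    · rw [if_neg (fun h3 => (eqT_ff.1 h3) h2)] at h
      by_cases h4 : w = y
      · exact Or.inr ⟨h2, h4⟩
      · exact absurd (eqT_ff.2 h4) h
    · rw [if_pos (eqT_ff.2 h2)] at h
      exact absurd rfl h

theorem swT_forall {x y : Tree} : ∀ vs ws : Tree, swT (node x y) vs ws ≠ ff →
    List.Forall₂ (fun v w => w = v ∨ (v = x ∧ w = y)) (toL vs) (toL ws)
  | nil, nil, _ => List.Forall₂.nil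
  | nil, node _ _, h => absurd rfl h
  | node _ _, nil, h => absurd rfl h
  | node v r, node w s, h => by
    rw [swT] at h
    by_cases h1 : sw1 (node x y) v w = ff
    · rw [if_pos h1] at h; exact absurd rfl h
    · rw [if_neg h1] at h
      exact List.Forall₂.cons (sw1_cases h1) (swT_forall r s h)

/-! ## decoding -/

/-- atomic formulas -/
def atm (k : Tree) (L : List ℕ) : Fml :=
  match k with
  | nil => .eq (rd L 0) (rd L 1)
  | node nil r => .op (opc r) (rd L 0) (rd L 1) (rd L 2) (rd L 3)
  | node (node _ _) r => match opc r with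
    | 0 => .zero (rd L 0)
    | 1 => .succ (rd L 0) (rd L 1)
    | 2 => .add (rd L 0) (rd L 1) (rd L 2)
    | _ => .mul (rd L 0) (rd L 1) (rd L 2)

/-- decoding of trees as formulas -/
def dlt (ν : Tree → ℕ) : Tree → Fml
  | nil => .bot
  | node _ nil => .bot
  | node nil (node k vs) => if vs = nil then .bot else atm k ((toL vs).map ν)
  | node (node nil _) (node a b) => .imp (dlt ν a) (dlt ν b)
  | node (node (node _ _) _) (node u a) => .all (ν u) (dlt ν a)

theorem atm_free {k : Tree} {L : List ℕ} (hL : L ≠ []) {x : ℕ} (h : (atm k L).Free x) : x ∈ L := by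
  unfold atm at h
  have hm := fun i => rd_mem L i hL
  split at h
  · rcases h with h | h <;> rw [h] <;> exact hm _
  · rcases h with h | h | h | h <;> rw [h] <;> exact hm _
  · split at h
    · change x = _ at h; rw [h]; exact hm _
    · rcases h with h | h <;> rw [h] <;> exact hm _
    · rcases h with h | h | h <;> rw [h] <;> exact hm _
    · rcases h with h | h | h <;> rw [h] <;> exact hm _

theorem atm_subst (k : Tree) {L : List ℕ} (hL : L ≠ []) (x y : ℕ) :
    (atm k L).subst x y = atm k (L.map (ren x y)) := by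
  have hm := fun i => rd_map (ren x y) L i hL
  unfold atm
  split
  · simp only [Fm.subst, hm]
  · simp only [Fm.subst, hm]
  · split <;> simp only [Fm.subst, hm]

theorem atm_freeFor (k : Tree) (L : List ℕ) (x y : ℕ) : (atm k L).FreeFor y x := by
  unfold atm
  split
  · trivial
  · trivial
  · split <;> trivial

theorem atm_repl (k : Tree) {L L' : List ℕ} (hL : L ≠ []) {x y : ℕ}
    (h : List.Forall₂ (Sw x y) L L') : ReplK x y (atm k L) (atm k L') := by
  have hm := fun i => rd_forall₂ L L' i h hL
  unfold atm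
  split
  · exact .eq (hm _) (hm _)
  · exact .op (hm _) (hm _) (hm _) (hm _)
  · split
    · exact .zero (hm _)
    · exact .succ (hm _) (hm _)
    · exact .add (hm _) (hm _) (hm _)
    · exact .mul (hm _) (hm _) (hm _)

end Pool.Agent.T9h85.IO
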