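import Pool.Agent.T9h85.IO.PrA

/-! # (S9b) the lines of a run are a proof -/

set_option autoImplicit false

namespace Pool.Agent.T9h85.IO

open Pool.Agent.TH672 (Fm Str upd num digits varStr LogK ReplK Sw)
open Pool.Agent.TH672.Form (ren)
open Pool.Agent.TH636.BC
open Pool.Agent.T9h88.IO
open Pool.Agent.T9h88.IO.Tree
open Pool.Agent.T9h6.BC (sz)

/-- a set of trees closed under subtrees on which the map `ν` is injective -/
structure Nm (F : Tree → Prop) (ν : Tree → ℕ) : Prop where
  left : ∀ a b : Tree, F (node a b) → F a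
  right : ∀ a b : Tree, F (node a b) → F b
  inj : ∀ a b : Tree, F a → F b → ν a = ν b → a = b

variable {F : Tree → Prop} {ν : Tree → ℕ}

theorem Nm.mem (h : Nm F ν) : ∀ (t v : Tree), F t → v ∈ toL t → F v
  | nil, v, _, hv => by simp [toL] at hv
  | node a b, v, ht, hv => by
    rw [toL, List.mem_cons] at hv
    rcases hv with rfl | hv
    · exact h.left _ _ ht
    · exact h.mem b v (h.right _ _ ht) hv

theorem toL_ne {vs : Tree} (h : vs ≠ nil) : toL vs ≠ [] := by
  cases vs with
  | nil => exact absurd rfl h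
  | node v r => simp [toL]

theorem map_ne {vs : Tree} (h : vs ≠ nil) : (toL vs).map ν ≠ [] := by
  rw [Ne, List.map_eq_nil_iff]
  exact toL_ne h

theorem dlt_free (h : Nm F ν) {x : Tree} (hx : F x) : ∀ t : Tree, F t → (dlt ν t).Free (ν x) →
    freeT x t ≠ ff
  | nil, _, h1 => by exact absurd h1 (by simp [dlt, Fm.Free])
  | node nil nil, _, h1 => by exact absurd h1 (by simp [dlt, Fm.Free])
  | node (node _ _) nil, _, h1 => by exact absurd h1 (by simp [dlt, Fm.Free])
  | node nil (node k vs), ht, h1 => by
    rw [freeT]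
    rw [dlt] at h1
    by_cases hv : vs = nil
    · rw [if_pos hv] at h1; exact absurd h1 (by simp [Fm.Free])
    · rw [if_neg hv] at h1
      have h2 := atm_free (map_ne hv) h1
      obtain ⟨v, hv1, hv2⟩ := List.mem_map.1 h2
      have h3 : F vs := h.right _ _ (h.right _ _ ht)
      have h4 := h.inj _ _ (h.mem _ _ h3 hv1) hx hv2
      rw [Ne, memT_ff, not_not]
      rw [← h4]; exact hv1
  | node (node nil c) (node a b), ht, h1 => by
    rw [freeT]
    rw [dlt] at h1
    have h2 := h.right _ _ ht
    by_cases h3 : freeT x a = ff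
    · rw [if_pos h3]
      rcases h1 with h1 | h1
      · exact absurd h3 (dlt_free h hx a (h.left _ _ h2) h1)
      · exact dlt_free h hx b (h.right _ _ h2) h1
    · rw [if_neg h3]
      exact tt_ne
  | node (node (node p q) c) (node u a), ht, h1 => by
    rw [freeT]
    rw [dlt] at h1
    obtain ⟨h2, h3⟩ := h1
    have h4 := h.right _ _ ht
    have h5 : x ≠ u := fun h6 => h2 (by rw [h6])
    rw [if_pos (eqT_ff.2 h5)]
    exact dlt_free h hx a (h.right _ _ h4) h3

theorem dlt_freeFor (h : Nm F ν) {x y : Tree} (hx : F x) (hy : F y) : ∀ t : Tree, F t →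
    fforT y x t ≠ ff → (dlt ν t).FreeFor (ν y) (ν x)
  | nil, _, _ => trivial
  | node nil nil, _, _ => trivial
  | node (node _ _) nil, _, _ => by rw [dlt]; trivial
  | node nil (node k vs), _, _ => by
    rw [dlt]
    split_ifs
    · trivial
    · exact atm_freeFor _ _ _ _
  | node (node nil c) (node a b), ht, h1 => by
    rw [fforT] at h1
    rw [dlt]
    have h2 := h.right _ _ ht
    by_cases h3 : fforT y x a = ff
    · rw [if_pos h3] at h1; exact absurd rfl h1
    · rw [if_neg h3] at h1
      exact ⟨dlt_freeFor h hx hy a (h.left _ _ h2) h3, dlt_freeFor h hx hy b (h.right _ _ h2) h1⟩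
  | node (node (node p q) c) (node u a), ht, h1 => by
    rw [fforT] at h1
    rw [dlt]
    have h2 := h.right _ _ ht
    have hu := h.left _ _ h2
    have ha := h.right _ _ h2
    by_cases h3 : u = x
    · exact Or.inl (by rw [h3])
    · rw [if_pos (eqT_ff.2 h3)] at h1
      by_cases h4 : freeT x a = ff
      · exact Or.inr (Or.inl fun h5 => dlt_free h hx a ha h5 h4)
      · rw [if_neg h4] at h1
        by_cases h5 : u = y
        · rw [if_neg (fun h6 => (eqT_ff.1 h6) h5)] at h1
          exact absurd rfl h1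
        · rw [if_pos (eqT_ff.2 h5)] at h1
          exact Or.inr (Or.inr ⟨fun h6 => h5 (h.inj _ _ hu hy h6),
            dlt_freeFor h hx hy a ha h1⟩)

theorem dlt_subst (h : Nm F ν) {x : Tree} (y : Tree) (hx : F x) : ∀ t : Tree, F t →
    dlt ν (subT x y t) = (dlt ν t).subst (ν x) (ν y)
  | nil, _ => rfl
  | node nil nil, _ => rfl
  | node (node _ _) nil, _ => by rw [subT, dlt]; rfl
  | node nil (node k vs), ht => by
    rw [subT, dlt, dlt]
    by_cases hv : vs = nil
    · rw [if_pos hv, if_pos ((subV_nil x y vs).2 hv)]; rfl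
    · rw [if_neg hv, if_neg (fun h1 => hv ((subV_nil x y vs).1 h1)),
        atm_subst k (map_ne hv), toL_subV, List.map_map, List.map_map]
      congr 1
      refine List.map_congr_left fun v hv1 => ?_
      have h3 : F vs := h.right _ _ (h.right _ _ ht)
      have hFv := h.mem _ _ h3 hv1
      simp only [Function.comp_apply]
      unfold ren
      by_cases h4 : v = x
      · rw [if_pos h4, if_pos (by rw [h4])]
      · rw [if_neg h4, if_neg (fun h5 => h4 (h.inj _ _ hFv hx h5))]
  | node (node nil c) (node a b), ht => by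
    have h2 := h.right _ _ ht
    rw [subT, dlt, dlt, dlt_subst h y hx a (h.left _ _ h2), dlt_subst h y hx b (h.right _ _ h2)]
    rfl
  | node (node (node p q) c) (node u a), ht => by
    have h2 := h.right _ _ ht
    have hu := h.left _ _ h2
    rw [subT, dlt]
    change _ = if ν u = ν x then Fm.all (ν u) (dlt ν a) else
      Fm.all (ν u) ((dlt ν a).subst (ν x) (ν y))
    by_cases h3 : u = x
    · rw [if_neg (fun h4 => (eqT_ff.1 h4) h3), if_pos (by rw [h3]), dlt]
    · rw [if_pos (eqT_ff.2 h3), if_neg (fun h4 => h3 (h.inj _ _ hu hx h4)), dlt,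
        dlt_subst h y hx a (h.right _ _ h2)]

/-! ## the rules -/

theorem dlt_impT (a b : Tree) : dlt ν (impT a b) = .imp (dlt ν a) (dlt ν b) := rfl
theorem dlt_allT (u a : Tree) : dlt ν (allT u a) = .all (ν u) (dlt ν a) := rfl
theorem dlt_negT (a : Tree) : dlt ν (negT a) = (dlt ν a).neg := rfl
theorem dlt_eqA (a b : Tree) : dlt ν (eqA a b) = .eq (ν a) (ν b) := rfl

theorem nthT_mem : ∀ g a : Tree, g ≠ nil → nthT g a ∈ toL g
  | nil, _, h => absurd rfl h
  | node v nil, i, _ => by cases i <;> simp [nthT, toL]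
  | node v (node p q), nil, _ => by simp [nthT, toL]
  | node v (node p q), node _ i, _ => by
    rw [nthT, toL]
    exact List.mem_cons_of_mem _ (nthT_mem (node p q) i (by intro h; cases h))

theorem runT_ne (g l : Tree) : runT g l ≠ nil := by
  cases l <;> (intro h; cases h)

/-- the codes of the axioms -/
theorem toL_encL : ∀ Γ : List Fml, toL (encL Γ) = Γ.map enc
  | [] => rfl
  | φ :: Γ => by rw [encL, toL, toL_encL Γ, List.map_cons]

/-- `node o (node a (node b (node c d)))` -/
theorem step_line (h : Nm F ν) {Γ : List Fml} (hΓ : ∀ φ ∈ Γ, dlt ν (enc φ) = φ) {π : Tree}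
    (hπ : π ≠ nil) (k : ℕ) {a b c d : Tree} (ha : F a) (hb : F b) (hc : F c) :
    Step Γ ((toL π).map (dlt ν)) (dlt ν (lineO (encL Γ) π k a b c d)) := by
  have hdf : Step Γ ((toL π).map (dlt ν)) (dlt ν dflt) :=
    Or.inr (Or.inl (LogK.refl (ν nil)))
  match k with
  | 0 =>
    unfold lineO
    simp only
    split_ifs with h1
    · exact hdf
    · have h2 := nthT_mem (encL Γ) a h1
      rw [toL_encL] at h2
      obtain ⟨φ, h3, h4⟩ := List.mem_map.1 h2
      refine Or.inl ?_
      rw [← h4, hΓ φ h3]
      exact h3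
  | 1 => exact Or.inr (Or.inl (LogK.k _ _))
  | 2 => exact Or.inr (Or.inl (LogK.s _ _ _))
  | 3 => exact Or.inr (Or.inl (LogK.dn _))
  | 4 =>
    unfold lineO
    simp only
    split_ifs with h1
    · exact hdf
    · rw [dlt_impT, dlt_allT, dlt_subst h b ha c hc]
      exact Or.inr (Or.inl (LogK.inst _ _ _ (dlt_freeFor h ha hb c hc h1)))
  | 5 =>
    unfold lineO
    simp only
    split_ifs with h1
    · rw [dlt_impT, dlt_allT, dlt_impT, dlt_impT, dlt_allT]
      exact Or.inr (Or.inl (LogK.dist _ _ _ fun h2 => dlt_free h ha b hb h2 h1))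
    · exact hdf
  | 6 => exact Or.inr (Or.inl (LogK.refl _))
  | 7 =>
    unfold lineO
    simp only
    split
    · rename_i v vs ws
      split_ifs with h1
      · exact hdf
      · have h2 := swT_forall _ _ h1
        have h3 : ws ≠ nil := by
          intro h4
          rw [h4] at h1
          exact h1 rfl
        have h4 : (node v vs : Tree) ≠ nil := by intro h5; cases h5
        rw [dlt_impT, dlt_eqA, dlt_impT]
        have e1 : dlt ν (node nil (node c (node v vs))) = atm c ((toL (node v vs)).map ν) := by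
          rw [dlt, if_neg h4]
        have e2 : dlt ν (node nil (node c ws)) = atm c ((toL ws).map ν) := by
          rw [dlt, if_neg h3]
        rw [e1, e2]
        refine Or.inr (Or.inl (LogK.repl _ _ _ _ (atm_repl c (map_ne h4) ?_)))
        rw [List.forall₂_map_left_iff, List.forall₂_map_right_iff]
        refine h2.imp fun v w h5 => ?_
        rcases h5 with h5 | ⟨h5, h6⟩
        · exact Or.inl (by rw [h5])
        · exact Or.inr ⟨by rw [h5], by rw [h6]⟩
    · exact hdf
  | 8 =>
    unfold lineO
    simp only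
    split_ifs with h1
    · exact hdf
    · have h2 : nthT π a = impT (nthT π b) c := by
        by_contra h3
        exact h1 (eqT_ff.2 h3)
      refine Or.inr (Or.inr (Or.inl ⟨dlt ν (nthT π b), List.mem_map_of_mem (nthT_mem π b hπ), ?_⟩))
      have h3 := List.mem_map_of_mem (f := dlt ν) (nthT_mem π a hπ)
      rw [h2, dlt_impT] at h3
      exact h3
  | k + 9 =>
    refine Or.inr (Or.inr (Or.inr ⟨dlt ν (nthT π b), List.mem_map_of_mem (nthT_mem π b hπ),
      ν a, ?_⟩))
    rfl

theorem run_proof (h : Nm F ν) {Γ : List Fml} (hΓ : ∀ φ ∈ Γ, dlt ν (enc φ) = φ) :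
    ∀ l : Tree, F l → IsProof Γ ((toL (runT (encL Γ) l)).map (dlt ν))
  | nil, _ => by
    change IsProof Γ [dlt ν dflt]
    exact ⟨trivial, Or.inr (Or.inl (LogK.refl (ν nil)))⟩
  | node j r, hl => by
    rw [runT, toL, List.map_cons]
    refine ⟨run_proof h hΓ r (h.right _ _ hl), ?_⟩
    have hj := h.left _ _ hl
    have hdf : Step Γ ((toL (runT (encL Γ) r)).map (dlt ν)) (dlt ν dflt) :=
      Or.inr (Or.inl (LogK.refl (ν nil)))
    unfold lineT
    split
    · rename_i o a b c d
      have h1 := h.right _ _ hj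
      have h2 := h.right _ _ h1
      have h3 := h.right _ _ h2
      exact step_line h hΓ (runT_ne _ _) _ (h.left _ _ h1) (h.left _ _ h2) (h.left _ _ h3)
    · exact hdf

end Pool.Agent.T9h85.IO
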