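import Pool.Agent.T9h85.IO.PrB

/-! # (S9b) names of variables, sizes -/

set_option autoImplicit false

namespace Pool.Agent.T9h85.IO

open Pool.Agent.TH672 (Fm Str upd num digits varStr LogK ReplK Sw)
open Pool.Agent.TH672.Form (ren)
open Pool.Agent.TH636.BC
open Pool.Agent.T9h88.IO
open Pool.Agent.T9h88.IO.Tree
open Pool.Agent.T9h6.BC (sz sz_pos)

/-! ## codes of formulas -/

theorem opc_comb : ∀ n : ℕ, opc (comb n) = n
  | 0 => rfl
  | n + 1 => by rw [comb, opc, opc_comb n]

theorem size_comb : ∀ n : ℕ, (comb n).size = n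
  | 0 => rfl
  | n + 1 => by rw [comb, Tree.size, size_comb n]; simp [Tree.size]

theorem opc_le : ∀ t : Tree, opc t ≤ t.size
  | nil => le_rfl
  | node a b => by rw [opc, Tree.size]; have := opc_le b; omega

theorem dlt_enc {ν : Tree → ℕ} {R : ℕ} (hν : ∀ x < R, ν (comb x) = x) :
    ∀ φ : Fml, sz φ ≤ R → dlt ν (enc φ) = φ
  | .bot, _ => rfl
  | .eq x y, h => by
    simp only [T9h6.BC.sz_eq] at h
    change Fm.eq (ν (comb x)) (ν (comb y)) = _
    rw [hν x (by omega), hν y (by omega)]
  | .zero x, h => by
    simp only [T9h6.BC.sz_zero] at h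
    change Fm.zero (ν (comb x)) = _
    rw [hν x (by omega)]
  | .succ x y, h => by
    simp only [T9h6.BC.sz_succ] at h
    change Fm.succ (ν (comb x)) (ν (comb y)) = _
    rw [hν x (by omega), hν y (by omega)]
  | .add x y z, h => by
    simp only [T9h6.BC.sz_add] at h
    change Fm.add (ν (comb x)) (ν (comb y)) (ν (comb z)) = _
    rw [hν x (by omega), hν y (by omega), hν z (by omega)]
  | .mul x y z, h => by
    simp only [T9h6.BC.sz_mul] at h
    change Fm.mul (ν (comb x)) (ν (comb y)) (ν (comb z)) = _
    rw [hν x (by omega), hν y (by omega), hν z (by omega)]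
  | .op i a b c d, h => by
    simp only [T9h6.BC.sz_op] at h
    change Fm.op (opc (comb i)) (ν (comb a)) (ν (comb b)) (ν (comb c)) (ν (comb d)) = _
    rw [opc_comb, hν a (by omega), hν b (by omega), hν c (by omega), hν d (by omega)]
  | .imp φ ψ, h => by
    simp only [T9h6.BC.sz_imp] at h
    change Fm.imp (dlt ν (enc φ)) (dlt ν (enc ψ)) = _
    rw [dlt_enc hν φ (by omega), dlt_enc hν ψ (by omega)]
  | .all x φ, h => by
    simp only [T9h6.BC.sz_all] at h
    change Fm.all (ν (comb x)) (dlt ν (enc φ)) = _
    rw [hν x (by omega), dlt_enc hν φ (by omega)]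

theorem size_enc : ∀ φ : Fml, (enc φ).size ≤ 2 * sz φ
  | .bot => by simp [enc, Tree.size]
  | .eq x y => by
    simp only [T9h6.BC.sz_eq, enc, encA, encV, Tree.size, size_comb]; omega
  | .zero x => by
    simp only [T9h6.BC.sz_zero, enc, encA, encV, Tree.size, size_comb]; omega
  | .succ x y => by
    simp only [T9h6.BC.sz_succ, enc, encA, encV, Tree.size, size_comb]; omega
  | .add x y z => by
    simp only [T9h6.BC.sz_add, enc, encA, encV, Tree.size, size_comb]; omega
  | .mul x y z => by
    simp only [T9h6.BC.sz_mul, enc, encA, encV, Tree.size, size_comb]; omega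
  | .op i a b c d => by
    simp only [T9h6.BC.sz_op, enc, encA, encV, Tree.size, size_comb]; omega
  | .imp φ ψ => by
    have h1 := size_enc φ
    have h2 := size_enc ψ
    simp only [T9h6.BC.sz_imp, enc, Tree.size]; omega
  | .all x φ => by
    have h1 := size_enc φ
    simp only [T9h6.BC.sz_all, enc, Tree.size, size_comb]; omega

theorem strs_cons (φ : Fml) (Γ : List Fml) :
    (strs (φ :: Γ)).length = sz φ + (strs Γ).length := by
  unfold strs sz
  rw [List.flatMap_cons, List.length_append]

theorem size_encL : ∀ Γ : List Fml, (encL Γ).size ≤ 3 * (strs Γ).length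
  | [] => by simp [encL, Tree.size]
  | φ :: Γ => by
    have h1 := size_enc φ
    have h2 := size_encL Γ
    have h3 := sz_pos φ
    rw [strs_cons, encL, Tree.size]
    omega

theorem sz_le_strs {Γ : List Fml} : ∀ {φ : Fml}, φ ∈ Γ → sz φ ≤ (strs Γ).length := by
  induction Γ with
  | nil => intro φ h; simp at h
  | cons ψ Γ ih =>
    intro φ h
    rw [strs_cons]
    rcases List.mem_cons.1 h with rfl | h
    · omega
    · have := ih h; omega

/-! ## subtrees -/

/-- the list of the subtrees -/
def subs : Tree → List Tree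
  | nil => [nil]
  | node a b => node a b :: (subs a ++ subs b)

theorem length_subs : ∀ t : Tree, (subs t).length = 2 * t.size + 1
  | nil => rfl
  | node a b => by
    rw [subs, List.length_cons, List.length_append, length_subs a, length_subs b, Tree.size]
    omega

theorem self_mem (t : Tree) : t ∈ subs t := by
  cases t <;> simp [subs]

theorem subs_trans : ∀ {s t u : Tree}, s ∈ subs t → t ∈ subs u → s ∈ subs u := by
  intro s t u
  induction u with
  | nil =>
    intro h1 h2
    simp only [subs, List.mem_singleton] at h2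
    rw [h2] at h1
    exact h1
  | node a b iha ihb =>
    intro h1 h2
    rw [subs, List.mem_cons, List.mem_append] at h2
    rcases h2 with h2 | h2 | h2
    · rw [h2] at h1; exact h1
    · rw [subs, List.mem_cons, List.mem_append]; exact Or.inr (Or.inl (iha h1 h2))
    · rw [subs, List.mem_cons, List.mem_append]; exact Or.inr (Or.inr (ihb h1 h2))

theorem subs_size : ∀ {s t : Tree}, s ∈ subs t → s.size ≤ t.size := by
  intro s t
  induction t with
  | nil =>
    intro h
    simp only [subs, List.mem_singleton] at h
    rw [h]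
  | node a b iha ihb =>
    intro h
    rw [subs, List.mem_cons, List.mem_append] at h
    rw [Tree.size]
    rcases h with h | h | h
    · rw [h, Tree.size]
    · have := iha h; omega
    · have := ihb h; omega

/-- names of the variables -/
def nm (T : Tree) (R : ℕ) (t : Tree) : ℕ :=
  if t = comb (opc t) ∧ opc t < R then opc t else R + (subs T).idxOf t

theorem nm_comb (T : Tree) {R x : ℕ} (h : x < R) : nm T R (comb x) = x := by
  unfold nm
  rw [opc_comb, if_pos ⟨rfl, h⟩]

theorem nm_le {T : Tree} {R : ℕ} {t : Tree} (h : t ∈ subs T) : nm T R t ≤ R + 2 * T.size + 1 := by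
  unfold nm
  split_ifs with h1
  · omega
  · have h2 := List.idxOf_lt_length_iff.2 h
    rw [length_subs] at h2
    omega

theorem nm_nm {T : Tree} {R : ℕ} (hR : T.size < R) : Nm (fun t => t ∈ subs T) (nm T R) where
  left a b h := subs_trans (by rw [subs, List.mem_cons, List.mem_append]
                               exact Or.inr (Or.inl (self_mem a))) h
  right a b h := subs_trans (by rw [subs, List.mem_cons, List.mem_append]
                                exact Or.inr (Or.inr (self_mem b))) h
  inj a b ha hb hab := by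
    unfold nm at hab
    have e : ∀ t : Tree, t ∈ subs T → opc t < R := fun t ht =>
      (opc_le t).trans_lt ((subs_size ht).trans_lt hR)
    by_cases h1 : a = comb (opc a)
    · rw [if_pos ⟨h1, e a ha⟩] at hab
      by_cases h2 : b = comb (opc b)
      · rw [if_pos ⟨h2, e b hb⟩] at hab
        rw [h1, h2, hab]
      · rw [if_neg (fun h => h2 h.1)] at hab
        have := e a ha
        omega
    · rw [if_neg (fun h => h1 h.1)] at hab
      by_cases h2 : b = comb (opc b)
      · rw [if_pos ⟨h2, e b hb⟩] at hab
        have := e b hb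
        omega
      · rw [if_neg (fun h => h2 h.1)] at hab
        have h3 : (subs T).idxOf a = (subs T).idxOf b := by omega
        exact (List.idxOf_inj ha).1 h3

/-! ## lengths -/

theorem atm_sz {k : Tree} {L : List ℕ} (hL : L ≠ []) {V : ℕ} (hk : k.size ≤ V)
    (h : ∀ x ∈ L, x ≤ V) : sz (atm k L) ≤ 5 * V + 9 := by
  have hm := fun i => h _ (rd_mem L i hL)
  unfold atm
  split
  · rw [T9h6.BC.sz_eq]
    have := hm 0
    have := hm 1
    omega
  · rename_i r
    rw [T9h6.BC.sz_op]
    have := opc_le r
    rw [Tree.size, Tree.size] at hk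
    have := hm 0
    have := hm 1
    have := hm 2
    have := hm 3
    omega
  · have := hm 0
    have := hm 1
    have := hm 2
    split
    · rw [T9h6.BC.sz_zero]; omega
    · rw [T9h6.BC.sz_succ]; omega
    · rw [T9h6.BC.sz_add]; omega
    · rw [T9h6.BC.sz_mul]; omega

theorem dlt_sz {F : Tree → Prop} {ν : Tree → ℕ} (h : Nm F ν) {V : ℕ} (hV : ∀ t, F t → ν t ≤ V)
    (hs : ∀ t, F t → t.size ≤ V) : ∀ t : Tree, F t → sz (dlt ν t) ≤ (t.size + 1) * (5 * V + 9)
  | nil, _ => by rw [dlt, T9h6.BC.sz_bot, Tree.size]; omega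
  | node nil nil, _ => by rw [dlt, T9h6.BC.sz_bot, Tree.size, Tree.size]; omega
  | node (node x y) nil, _ => by
    rw [dlt, T9h6.BC.sz_bot]
    have : 1 * (5 * V + 9) ≤ ((node (node x y) nil).size + 1) * (5 * V + 9) :=
      Nat.mul_le_mul_right _ (Nat.le_add_left 1 _)
    exact le_trans (by omega) this
  | node nil (node k vs), ht => by
    have h1 : 1 * (5 * V + 9) ≤ ((node nil (node k vs)).size + 1) * (5 * V + 9) :=
      Nat.mul_le_mul_right _ (Nat.le_add_left 1 _)
    refine le_trans ?_ h1
    rw [dlt]
    split_ifs with hv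
    · rw [T9h6.BC.sz_bot]; omega
    · rw [one_mul]
      have hkv := h.right _ _ ht
      refine atm_sz (map_ne hv) (hs _ (h.left _ _ hkv)) fun x hx => ?_
      obtain ⟨v, hv1, rfl⟩ := List.mem_map.1 hx
      exact hV v (h.mem _ _ (h.right _ _ hkv) hv1)
  | node (node nil c) (node a b), ht => by
    have h2 := h.right _ _ ht
    have ha := dlt_sz h hV hs a (h.left _ _ h2)
    have hb := dlt_sz h hV hs b (h.right _ _ h2)
    rw [dlt, T9h6.BC.sz_imp]
    have h3 : (a.size + b.size + 3) * (5 * V + 9) ≤
        ((node (node nil c) (node a b)).size + 1) * (5 * V + 9) := by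
      refine Nat.mul_le_mul_right _ ?_
      simp only [Tree.size]
      omega
    refine le_trans ?_ h3
    nlinarith
  | node (node (node p q) c) (node u a), ht => by
    have h2 := h.right _ _ ht
    have ha := dlt_sz h hV hs a (h.right _ _ h2)
    have hu := hV u (h.left _ _ h2)
    rw [dlt, T9h6.BC.sz_all]
    have h3 : (a.size + 3) * (5 * V + 9) ≤
        ((node (node (node p q) c) (node u a)).size + 1) * (5 * V + 9) := by
      refine Nat.mul_le_mul_right _ ?_
      simp only [Tree.size]
      omega
    refine le_trans ?_ h3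
    nlinarith

theorem list_sz {F : Tree → Prop} {ν : Tree → ℕ} (h : Nm F ν) {V : ℕ} (hV : ∀ t, F t → ν t ≤ V)
    (hs : ∀ t, F t → t.size ≤ V) : ∀ t : Tree, F t →
      (strs ((toL t).map (dlt ν))).length ≤ t.size * (5 * V + 9)
  | nil, _ => by simp [toL, strs]
  | node a b, ht => by
    rw [toL, List.map_cons, strs_cons, Tree.size]
    have h1 := dlt_sz h hV hs a (h.left _ _ ht)
    have h2 := list_sz h hV hs b (h.right _ _ ht)
    nlinarith

end Pool.Agent.T9h85.IO
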