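import Pool.Agent.T9h88.IO.Spec

/-! # The size of the run of the checker -/

set_option autoImplicit false

namespace Pool.Agent.T9h85.IO

open Pool.Agent.T9h88.IO
open Pool.Agent.T9h88.IO.Tree

/-- `t` is a member of the list `l` -/
def Mem (t : Tree) : Tree → Prop
  | nil => False
  | node v r => t = v ∨ Mem t r

theorem nthT_mem' : ∀ g a : Tree, g ≠ nil → Mem (nthT g a) g
  | nil, _, h => absurd rfl h
  | node v nil, i, _ => by cases i <;> exact Or.inl rfl
  | node v (node p q), nil, _ => Or.inl rfl
  | node v (node p q), node _ i, _ => by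
    rw [nthT]
    exact Or.inr (nthT_mem' (node p q) i (by intro h; cases h))

theorem mem_size {t : Tree} : ∀ {l : Tree}, Mem t l → t.size ≤ l.size
  | node v r, h => by
    rw [Tree.size]
    rcases h with h | h
    · rw [h]; omega
    · have := mem_size h; omega

theorem nthT_size (g a : Tree) : (nthT g a).size ≤ g.size := by
  by_cases h : g = nil
  · rw [h]; exact le_rfl
  · exact mem_size (nthT_mem' g a h)

theorem subV_size (x y : Tree) : ∀ vs : Tree,
    (subV x y vs).size + 1 ≤ (vs.size + 1) * (y.size + 1)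
  | nil => by simp [subV, Tree.size]
  | node v r => by
    have ih := subV_size x y r
    rw [subV]
    split_ifs
    · simp only [Tree.size]
      nlinarith
    · simp only [Tree.size]
      nlinarith

theorem subT_size (x y : Tree) : ∀ t : Tree,
    (subT x y t).size + 1 ≤ (t.size + 1) * (y.size + 1)
  | nil => by simp [subT, Tree.size]
  | node nil nil => by
    rw [subT]
    exact Nat.le_mul_of_pos_right _ (Nat.succ_pos _)
  | node (node a b) nil => by
    rw [subT]
    exact Nat.le_mul_of_pos_right _ (Nat.succ_pos _)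
  | node nil (node k vs) => by
    have ih := subV_size x y vs
    rw [subT]
    simp only [Tree.size]
    nlinarith
  | node (node nil c) (node a b) => by
    have ih1 := subT_size x y a
    have ih2 := subT_size x y b
    rw [subT]
    simp only [Tree.size]
    nlinarith
  | node (node (node p q) c) (node u a) => by
    have ih := subT_size x y a
    rw [subT]
    split_ifs
    · simp only [Tree.size]
      nlinarith
    · exact Nat.le_mul_of_pos_right _ (Nat.succ_pos _)

theorem lineO_size (g π : Tree) (M : ℕ) (hM : ∀ t, Mem t π → t.size ≤ M) (hπ : π ≠ nil)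
    (k : ℕ) (a b c d : Tree) : (lineO g π k a b c d).size ≤
      g.size + M + 20 * (a.size + b.size + c.size + d.size + 1) ^ 2 := by
  have hs : a.size + b.size + c.size + d.size + 1 ≤
      (a.size + b.size + c.size + d.size + 1) ^ 2 := Nat.le_self_pow two_ne_zero _
  have hdf : dflt.size ≤ 4 := by decide
  match k with
  | 0 =>
    unfold lineO
    simp only
    split_ifs
    · omega
    · have := nthT_size g a; omega
  | 1 => simp only [lineO, Tree.size]; omega
  | 2 => simp only [lineO, Tree.size]; omega
  | 3 => simp only [lineO, Tree.size]; omega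
  | 4 =>
    unfold lineO
    simp only
    split_ifs
    · omega
    · have h1 := subT_size a b c
      simp only [Tree.size]
      nlinarith
  | 5 =>
    unfold lineO
    simp only
    split_ifs
    · simp only [Tree.size]; omega
    · omega
  | 6 => simp only [lineO, Tree.size]; omega
  | 7 =>
    unfold lineO
    simp only
    split
    · split_ifs
      · omega
      · simp only [Tree.size] at *
        omega
    · omega
  | 8 =>
    unfold lineO
    simp only
    split_ifs
    · omega
    · omega
  | k + 9 =>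
    have h1 := hM _ (nthT_mem' π b hπ)
    simp only [lineO, Tree.size]
    omega

theorem runT_ne' (g l : Tree) : runT g l ≠ nil := by
  cases l <;> (intro h; cases h)

theorem lineT_size (g π : Tree) (M : ℕ) (hM : ∀ t, Mem t π → t.size ≤ M) (hπ : π ≠ nil)
    (j : Tree) : (lineT g π j).size ≤ g.size + M + 20 * (j.size + 1) ^ 2 := by
  have hdf : dflt.size ≤ 4 := by decide
  have hj : 1 ≤ (j.size + 1) ^ 2 := Nat.one_le_pow _ _ (Nat.succ_pos _)
  unfold lineT
  split
  · rename_i o a b c d
    refine (lineO_size g π M hM hπ _ a b c d).trans ?_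
    have h1 : (a.size + b.size + c.size + d.size + 1) ^ 2 ≤
        ((node o (node a (node b (node c d)))).size + 1) ^ 2 := by
      refine Nat.pow_le_pow_left ?_ 2
      simp only [Tree.size]
      omega
    omega
  · omega

theorem run_aux (g : Tree) (L : ℕ) : ∀ l : Tree, l.size ≤ L →
    (∀ t, Mem t (runT g l) → t.size ≤ (l.size + 1) * (g.size + 20 * (L + 1) ^ 2)) ∧
    (runT g l).size ≤ (l.size + 1) * ((L + 1) * (g.size + 20 * (L + 1) ^ 2) + 1)
  | nil, _ => by
    have hj : 1 ≤ (L + 1) ^ 2 := Nat.one_le_pow _ _ (Nat.succ_pos _)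
    have h0 : dflt.size = 4 := by decide
    have hQ : 20 ≤ g.size + 20 * (L + 1) ^ 2 := by omega
    constructor
    · intro t ht
      rcases ht with ht | ht
      · rw [ht, h0, Tree.size]; omega
      · exact ht.elim
    · have h5 : (node dflt nil).size = 5 := by decide
      rw [runT, h5, Tree.size]
      nlinarith
  | node j r, hl => by
    rw [Tree.size] at hl
    obtain ⟨ih1, ih2⟩ := run_aux g L r (by omega)
    have hj : (j.size + 1) ^ 2 ≤ (L + 1) ^ 2 := Nat.pow_le_pow_left (by omega) 2
    have h1 := lineT_size g (runT g r) _ ih1 (runT_ne' g r) j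
    have h2 : (lineT g (runT g r) j).size ≤ (r.size + 2) * (g.size + 20 * (L + 1) ^ 2) := by
      calc (lineT g (runT g r) j).size
          ≤ g.size + (r.size + 1) * (g.size + 20 * (L + 1) ^ 2) + 20 * (j.size + 1) ^ 2 := h1
        _ ≤ g.size + (r.size + 1) * (g.size + 20 * (L + 1) ^ 2) + 20 * (L + 1) ^ 2 := by omega
        _ = (r.size + 2) * (g.size + 20 * (L + 1) ^ 2) := by ring
    constructor
    · intro t ht
      rw [runT] at ht
      rw [Tree.size]
      rcases ht with ht | ht
      · rw [ht]
        exact h2.trans (Nat.mul_le_mul_right _ (by omega))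
      · exact (ih1 t ht).trans (Nat.mul_le_mul_right _ (by omega))
    · rw [runT, Tree.size, Tree.size]
      have h3 : (r.size + 2) * (g.size + 20 * (L + 1) ^ 2) ≤
          (L + 1) * (g.size + 20 * (L + 1) ^ 2) := Nat.mul_le_mul_right _ (by omega)
      calc (lineT g (runT g r) j).size + (runT g r).size + 1
          ≤ (L + 1) * (g.size + 20 * (L + 1) ^ 2) +
            (r.size + 1) * ((L + 1) * (g.size + 20 * (L + 1) ^ 2) + 1) + 1 := by omega
        _ = (r.size + 2) * ((L + 1) * (g.size + 20 * (L + 1) ^ 2) + 1) := by ring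
        _ ≤ _ := Nat.mul_le_mul_right _ (by omega)

/-- **The size of a run is bounded by a polynomial.** -/
theorem runT_size_le (g l : Tree) : (runT g l).size ≤
    (l.size + 1) * ((l.size + 1) * (g.size + 20 * (l.size + 1) ^ 2) + 1) :=
  (run_aux g l.size l le_rfl).2

/-- the same with `pb` -/
theorem runT_size_pb (g l : Tree) : (runT g l).size ≤ pb 10 (g.size + l.size) := by
  refine (runT_size_le g l).trans ?_
  unfold pb
  set Y := g.size + l.size + 2 with hY
  have h1 : l.size + 1 ≤ Y := by omega
  have h2 : g.size ≤ Y := by omega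
  have hY2 : 2 ≤ Y := by omega
  have h5 : 2 ^ 5 ≤ Y ^ 5 := Nat.pow_le_pow_left hY2 5
  have e1 : g.size + 20 * (l.size + 1) ^ 2 ≤ Y ^ 7 := by
    have h3 : (l.size + 1) ^ 2 ≤ Y ^ 2 := Nat.pow_le_pow_left h1 2
    have h4 : Y ≤ Y ^ 2 := Nat.le_self_pow two_ne_zero _
    calc g.size + 20 * (l.size + 1) ^ 2 ≤ 21 * Y ^ 2 := by omega
      _ ≤ Y ^ 5 * Y ^ 2 := Nat.mul_le_mul_right _ (by omega)
      _ = Y ^ 7 := by ring
  have e2 : (l.size + 1) * (g.size + 20 * (l.size + 1) ^ 2) + 1 ≤ Y ^ 9 := by
    have h6 : 1 ≤ Y ^ 8 := Nat.one_le_pow _ _ (by omega)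
    calc (l.size + 1) * (g.size + 20 * (l.size + 1) ^ 2) + 1 ≤ Y * Y ^ 7 + Y ^ 8 :=
          Nat.add_le_add (Nat.mul_le_mul h1 e1) h6
      _ = 2 * Y ^ 8 := by ring
      _ ≤ Y * Y ^ 8 := Nat.mul_le_mul_right _ hY2
      _ = Y ^ 9 := by ring
  calc (l.size + 1) * ((l.size + 1) * (g.size + 20 * (l.size + 1) ^ 2) + 1)
      ≤ Y * Y ^ 9 := Nat.mul_le_mul h1 e2
    _ = Y ^ 10 := by ring

end Pool.Agent.T9h85.IO
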