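import Pool.Agent.T9h85.IO.PrC
import Pool.Agent.T9h85.IO.RunSize

/-! # (S9b) lists of instructions give proofs -/

set_option autoImplicit false

namespace Pool.Agent.T9h85.IO

open Pool.Agent.TH672 (Fm Str upd num digits varStr LogK ReplK Sw)
open Pool.Agent.TH636.BC
open Pool.Agent.T9h88.IO
open Pool.Agent.T9h88.IO.Tree
open Pool.Agent.T9h6.BC (sz sz_pos)

theorem poly_bound {X G L S r T R V : ℕ} (hX : X = L + S) (hG : G ≤ 3 * S)
    (hr : r ≤ (G + L + 2) ^ 10) (hT : T = G + (L + r + 1) + 1) (hR : R = T + S + 1)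
    (hV : V = R + 2 * T + 1) : r * (5 * V + 9) ≤ (X + 2) ^ 80 := by
  set Y := X + 2 with hY
  have hY2 : 2 ≤ Y := by omega
  have p2 : 2 ^ 2 ≤ Y ^ 2 := Nat.pow_le_pow_left hY2 2
  have p3 : 2 ^ 3 ≤ Y ^ 3 := Nat.pow_le_pow_left hY2 3
  have p5 : 2 ^ 5 ≤ Y ^ 5 := Nat.pow_le_pow_left hY2 5
  have h1 : G + L + 2 ≤ Y ^ 3 := by
    calc G + L + 2 ≤ 3 * Y := by omega
      _ ≤ Y ^ 2 * Y := Nat.mul_le_mul_right _ (by omega)
      _ = Y ^ 3 := by ring
  have h2 : r ≤ Y ^ 30 := by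
    calc r ≤ (G + L + 2) ^ 10 := hr
      _ ≤ (Y ^ 3) ^ 10 := Nat.pow_le_pow_left h1 10
      _ = Y ^ 30 := by ring
  have h30 : Y ^ 3 ≤ Y ^ 30 := Nat.pow_le_pow_right (by omega) (by omega)
  have h31 : Y ≤ Y ^ 30 := Nat.le_self_pow (by omega) _
  have h3 : V ≤ 14 * Y ^ 30 := by omega
  have h4 : 5 * V + 9 ≤ Y ^ 30 * Y ^ 20 := by
    have p20 : 2 ^ 20 ≤ Y ^ 20 := Nat.pow_le_pow_left hY2 20
    calc 5 * V + 9 ≤ Y ^ 30 * 2 ^ 20 := by
          have : 1 ≤ Y ^ 30 := Nat.one_le_pow _ _ (by omega)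
          norm_num
          omega
      _ ≤ Y ^ 30 * Y ^ 20 := Nat.mul_le_mul_left _ p20
  calc r * (5 * V + 9) ≤ Y ^ 30 * (Y ^ 30 * Y ^ 20) := Nat.mul_le_mul h2 h4
    _ = Y ^ 80 := by ring

/-- **(S9b)** -/
theorem sProof : SProof := by
  refine ⟨80, fun Γ l hl => ?_⟩
  set g := encL Γ with hg
  set T : Tree := node g (node l (runT g l)) with hT
  set R : ℕ := T.size + (strs Γ).length + 1 with hR
  have hN : Nm (fun t => t ∈ subs T) (nm T R) := nm_nm (by omega)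
  have hgT : g ∈ subs T := hN.left _ _ (self_mem T)
  have hlT : l ∈ subs T := hN.left _ _ (hN.right _ _ (self_mem T))
  have hrT : runT g l ∈ subs T := hN.right _ _ (hN.right _ _ (self_mem T))
  have hΓ : ∀ φ ∈ Γ, dlt (nm T R) (enc φ) = φ := fun φ hφ =>
    dlt_enc (R := R) (fun x hx => nm_comb T hx) φ (by
      have := sz_le_strs hφ
      omega)
  have hp := run_proof hN hΓ l hlT
  rw [← hg] at hp
  -- the last line
  obtain ⟨p, hp0⟩ : ∃ p, runT g l = node nil p := by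
    cases h : runT g l with
    | nil => exact absurd h (runT_ne g l)
    | node a b =>
      cases a with
      | nil => exact ⟨b, rfl⟩
      | node a1 a2 => exact absurd ⟨a1, a2, b, h⟩ hl
  have hlen := list_sz hN (V := R + 2 * T.size + 1) (fun t ht => nm_le ht)
    (fun t ht => (subs_size ht).trans (by omega)) (runT g l) hrT
  have hbound : (runT g l).size * (5 * (R + 2 * T.size + 1) + 9) ≤
      (l.size + (strs Γ).length + 2) ^ 80 := by
    refine poly_bound (G := g.size) (L := l.size) (S := (strs Γ).length) (T := T.size) (R := R)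
      rfl (size_encL Γ) (runT_size_pb g l) ?_ rfl rfl
    rw [hT, Tree.size, Tree.size]
  rw [hp0, toL, List.map_cons, dlt] at hp
  refine ⟨(toL p).map (dlt (nm T R)), hp, ?_⟩
  rw [hp0] at hlen hbound
  rw [toL, List.map_cons, dlt] at hlen
  exact hlen.trans hbound

end Pool.Agent.T9h85.IO
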